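import Mathlib

/-!
# The Lindelof bound for `GL(1)`

The cuspidal automorphic representations `π` of `GL₁(𝔸_ℚ)` whose central character is trivial on
`ℝ_{>0}` are the primitive Dirichlet characters. The conductor is the modulus `q`, the standard
`L`-function is the Dirichlet `L`-function (the Riemann zeta function for `q = 1`), and the
archimedean parameter is `μ = 0` for even and `μ = -1` for odd characters.
-/

set_option autoImplicit false

open Complex MeasureTheory Set

namespace Pool.Agent.H27.L1.H23.GLH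

/-- A primitive Dirichlet character `χ` modulo `q ≥ 1`. -/
structure PrimChar where
  /-- the conductor -/
  q : ℕ
  q_ne : NeZero q
  /-- the character -/
  χ : DirichletCharacter ℂ q
  prim : χ.IsPrimitive

open scoped Classical in
/-- The analytic conductor `C_π = q (1 + |μ|)`, where `μ = 0` if `χ` is even and `μ = -1` if `χ` is
odd. -/
noncomputable def PrimChar.C (π : PrimChar) : ℝ := π.q * (if π.χ.Even then 1 else 2)

/-- The standard `L`-function `L(s, π)`: the analytic continuation of `∑ χ(n) n^{-s}`. -/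
noncomputable def PrimChar.L (π : PrimChar) (s : ℂ) : ℂ :=
  letI := π.q_ne
  DirichletCharacter.LFunction π.χ s

/-- The bound `|L(1/2 + it, π)| ≤ B ((1 + |t|) C_π)^a` with one constant `B` for all `π ∈ S` and all
real `t`. For `S` the set of all `π` and all `a > 0` this is the case `m = 1` of the Grand Lindelof
Hypothesis. -/
def LindelofBound (S : Set PrimChar) (a : ℝ) : Prop :=
  ∃ B : ℝ, ∀ π ∈ S, ∀ t : ℝ, ‖π.L (1 / 2 + t * I)‖ ≤ B * ((1 + |t|) * π.C) ^ a

/-- Whenever `π ∈ S` and `(1 + |t|) C_π` is large enough, the points `u` of the interval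
`[t, t + η]` with `|L(1/2 + iu, π)| ≤ ((1 + |u|) C_π)^a` form a set of Lebesgue measure at least
`m`. -/
def GoodWindows (S : Set PrimChar) (a η m : ℝ) : Prop :=
  ∃ K : ℝ, ∀ π ∈ S, ∀ t : ℝ, K ≤ (1 + |t|) * π.C →
    ENNReal.ofReal m ≤ volume {u : ℝ | u ∈ Icc t (t + η) ∧
      ‖π.L (1 / 2 + u * I)‖ ≤ ((1 + |u|) * π.C) ^ a}

/-- Whenever `π ∈ S` and `(1 + |t|) C_π` is large enough, the interval `[t, t + η]` contains at least
`κ η log ((1 + |t|) C_π)` points `u` with `|L(1/2 + iu, π)| ≤ ((1 + |u|) C_π)^a` and with mutual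
distances at least `m / log ((1 + |t|) C_π)`. -/
def GoodSamples (S : Set PrimChar) (a κ η m : ℝ) : Prop :=
  ∃ K : ℝ, ∀ π ∈ S, ∀ t : ℝ, K ≤ (1 + |t|) * π.C → ∃ Z : Finset ℝ,
    κ * η * Real.log ((1 + |t|) * π.C) ≤ Z.card ∧
    (∀ u ∈ Z, u ∈ Icc t (t + η) ∧ ‖π.L (1 / 2 + u * I)‖ ≤ ((1 + |u|) * π.C) ^ a) ∧
    ∀ u ∈ Z, ∀ v ∈ Z, u ≠ v → m / Real.log ((1 + |t|) * π.C) ≤ |u - v|

end Pool.Agent.H27.L1.H23.GLH
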